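import Pool.Agent.K4H52.VSP.Hard2

/-!
# MP_6e49ee_lc: single-vehicle scheduling on a path with positive handling times is NP-hard

The decision version of the problem (numbers encoded in binary) is NP-hard, even for symmetric
positive travel times and a start vertex at an end of the path.
-/

namespace Pool.Agent.Results.MP_6e49ee_lc.PathNPHard

open Pool.Agent.NPC Pool.Agent.K4H52.VSP

theorem result : NPHardP PathVSP ∧ NPHardP PathVSPSymEnd := ⟨npHard, npHardSymEnd⟩

end Pool.Agent.Results.MP_6e49ee_lc.PathNPHard
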